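import Pool.Agent.Q98.SN.Real

/-!
For every `1 < p < ∞`, `p ≠ 2`, and for real as well as complex scalars there are `0 < s < 1` and
an equivalent `s`-norm on `L_p[0,1]` for which the Haar system is 1-greedy.
-/

set_option autoImplicit false

namespace Pool.Agent.Results.MP_877d49_an.OneGreedySNorm

open MeasureTheory Pool.Agent.Q98.SNDefs
open scoped ENNReal

/-- The statement for the scalars `𝕜` and the exponent `p`: the Haar system `h` of `L_p[0,1]` is a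
Schauder basis, and there are `0 < s < 1` and an equivalent `s`-norm `N` for which it is
1-greedy. -/
def Answer (𝕜 : Type) [RCLike 𝕜] (p : ℝ≥0∞) [Fact (1 ≤ p)] : Prop :=
  ∃ h : ℕ → Lp 𝕜 p leb, IsHaar 𝕜 p h ∧ IsBasis 𝕜 h ∧
    ∃ (s : ℝ) (N : Lp 𝕜 p leb → ℝ), 0 < s ∧ s < 1 ∧ IsSNorm 𝕜 s N ∧ IsEquivalent N ∧
      IsOneGreedy 𝕜 h N

theorem result : ∀ (p : ℝ≥0∞) [Fact (1 ≤ p)], 1 < p → p ≠ ∞ → p ≠ 2 → Answer ℝ p ∧ Answer ℂ p :=
  fun p _ h1 hpt h2 => ⟨Q98.SN.main_real p h1 hpt h2, Q98.SN.main_complex p h1 hpt h2⟩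

end Pool.Agent.Results.MP_877d49_an.OneGreedySNorm
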